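import Pool.Agent.P.MP_48c1a1_co.Main

set_option autoImplicit false

namespace Pool.Agent.Results.MP_48c1a1_co.BicliqueLowerBound

open Pool.Agent.P.MP_48c1a1_co

/-- The edge probability one half, as a point of the unit interval. -/
noncomputable def half : unitInterval := ⟨1 / 2, by norm_num, by norm_num⟩

/-- There is a constant `C > 0` such that, in the binomial random graph `G(n, 1/2)`, the
probability of `bc(G) ≥ n - C * α(G)` tends to one. -/
theorem result :
    ∃ C : ℝ, 0 < C ∧
      Filter.Tendsto
        (fun n : ℕ => (SimpleGraph.binomialRandom (Fin n) half).real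
          {G : SimpleGraph (Fin n) | (n : ℝ) - C * (G.indepNum : ℝ) ≤ (bc G : ℝ)})
        Filter.atTop (nhds 1) :=
  main half rfl

end Pool.Agent.Results.MP_48c1a1_co.BicliqueLowerBound
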